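import Pool.Agent.helper32.QS.Spec

set_option autoImplicit false

namespace QS

theorem NIa_pow2 (m : ℕ) (hm : 5 ≤ m) : 2 * m ^ 2 + 3 * m + 7 ≤ 3 * 2 ^ m := by
  induction m, hm using Nat.le_induction with
  | base => norm_num
  | succ m hm ih =>
    have h : (2 : ℕ) ^ (m + 1) = 2 * 2 ^ m := by ring
    rw [h]
    nlinarith

theorem NIa_main (e a : ℕ) (he : 10 ≤ e) (ha : 5 * 2 ^ a ≤ e) : 5 * e ^ (2 * a + 5) ≤ 12 * 8 ^ (e - 2) := by
  rcases Nat.lt_or_ge e 32 with h | h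
  · have ha3 : a < 3 := by
      rw [← Nat.pow_lt_pow_iff_right (a := 2) (by norm_num)]
      omega
    interval_cases a
    · interval_cases e <;> norm_num
    · interval_cases e <;> norm_num
    · have he2 : 20 ≤ e := by simpa using ha
      interval_cases e <;> norm_num
  · obtain ⟨m, hm⟩ : ∃ m, m = Nat.log 2 e := ⟨_, rfl⟩
    have h1 : 2 ^ m ≤ e := by rw [hm]; exact Nat.pow_log_le_self 2 (by omega)
    have h2 : e < 2 ^ (m + 1) := by rw [hm]; exact Nat.lt_pow_succ_log_self (by norm_num) e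
    have h5 : 5 ≤ m := by
      have : (2 : ℕ) ^ 5 < 2 ^ (m + 1) := by norm_num; omega
      rw [Nat.pow_lt_pow_iff_right (by norm_num)] at this
      omega
    have ham : a + 2 ≤ m := by
      have : (2 : ℕ) ^ (a + 2) < 2 ^ (m + 1) := by
        rw [pow_add]
        omega
      rw [Nat.pow_lt_pow_iff_right (by norm_num)] at this
      omega
    have h3 : e ^ (2 * a + 5) ≤ 2 ^ ((m + 1) * (2 * m + 1)) := by
      calc e ^ (2 * a + 5) ≤ e ^ (2 * m + 1) := Nat.pow_le_pow_right (by omega) (by omega)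
        _ ≤ (2 ^ (m + 1)) ^ (2 * m + 1) := Nat.pow_le_pow_left h2.le _
        _ = _ := by rw [pow_mul]
    have h4 : (m + 1) * (2 * m + 1) ≤ 3 * (e - 2) := by
      have := NIa_pow2 m h5
      have h6 : 3 * (e - 2) + 6 = 3 * e := by omega
      nlinarith
    have h6 : (8 : ℕ) ^ (e - 2) = 2 ^ (3 * (e - 2)) := by rw [pow_mul]; norm_num
    have h7 : (2 : ℕ) ^ ((m + 1) * (2 * m + 1)) ≤ 2 ^ (3 * (e - 2)) := Nat.pow_le_pow_right (by norm_num) h4
    rw [h6]
    omega

theorem NIa_Om (p e' : ℕ) (hp : p.Prime) (he : e' ≠ 0) : Om (p * e') = Om e' + 1 := by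
  unfold Om
  have h := (Nat.perm_primeFactorsList_mul hp.ne_zero he).length_eq
  rw [h, List.length_append, Nat.primeFactorsList_prime hp]
  simp [add_comm]

theorem NIa_Om2 (e' : ℕ) (he : e' ≠ 0) : 2 ^ Om e' ≤ e' := by
  unfold Om
  calc 2 ^ e'.primeFactorsList.length ≤ e'.primeFactorsList.prod :=
        List.pow_card_le_prod _ 2 (fun x hx => (Nat.prime_of_mem_primeFactorsList hx).two_le)
    _ = e' := Nat.prod_primeFactorsList he

theorem NIa_K (p r s : ℕ) (hp : p.Prime) (h5 : 5 ≤ p) (hr : r.Prime) (hs : 1 ≤ s) (hd : p ∣ r ^ s - 1) :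
    8 ≤ r ^ s ∧ p < r ^ s ∧ (p = 5 → 11 ≤ r ^ s) := by
  have hK2 : 2 ≤ r ^ s := by
    calc 2 ≤ r := hr.two_le
      _ = r ^ 1 := (pow_one r).symm
      _ ≤ r ^ s := Nat.pow_le_pow_right hr.pos hs
  have h6 : r ^ s ≠ 6 := by
    intro h
    have h2 : 2 ∣ r := Nat.prime_two.dvd_of_dvd_pow (n := s) (by rw [h]; norm_num)
    have h3 : 3 ∣ r := Nat.prime_three.dvd_of_dvd_pow (n := s) (by rw [h]; norm_num)
    have h2' := (Nat.prime_dvd_prime_iff_eq Nat.prime_two hr).mp h2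
    have h3' := (Nat.prime_dvd_prime_iff_eq Nat.prime_three hr).mp h3
    omega
  obtain ⟨K, hK⟩ : ∃ K, K = r ^ s := ⟨_, rfl⟩
  rw [← hK] at hK2 h6 hd ⊢
  obtain ⟨q, hq⟩ := hd
  have hq0 : q ≠ 0 := by rintro rfl; omega
  have hpq : p ≤ p * q := Nat.le_mul_of_pos_right p (by omega)
  have hpK : p < K := by omega
  refine ⟨?_, hpK, ?_⟩
  · by_contra hcon
    have hK7 : K = 7 := by omega
    subst hK7
    have hq1 : q = 1 := by
      by_contra hne
      have : 2 ≤ q := by omega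
      have : p * 2 ≤ p * q := Nat.mul_le_mul_left p this
      omega
    rw [hq1] at hq
    have : p = 6 := by omega
    rw [this] at hp
    revert hp
    norm_num
  · intro h
    subst h
    omega

theorem NIa_sK (r s : ℕ) (hr : r.Prime) (hs : 1 ≤ s) (h8 : 8 ≤ r ^ s) : 3 * (s * (r ^ s - 1)) ≤ (r ^ s) ^ 2 := by
  rcases Nat.lt_or_ge s 4 with h | h
  · obtain ⟨k, hk⟩ : ∃ k, r ^ s = k + 1 := ⟨r ^ s - 1, by omega⟩
    rw [hk] at h8 ⊢
    rw [Nat.add_sub_cancel]
    interval_cases s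
    · nlinarith
    · nlinarith
    · rcases Nat.lt_or_ge k 8 with h1 | h1
      · have : k = 7 := by omega
        subst this; norm_num
      · nlinarith
  · have h1 : ∀ s : ℕ, 4 ≤ s → 4 * s ≤ 2 ^ s := by
      intro s hs
      induction s, hs using Nat.le_induction with
      | base => norm_num
      | succ s hs ih => rw [pow_succ]; omega
    have h2 : 4 * s ≤ r ^ s := (h1 s h).trans (Nat.pow_le_pow_left hr.two_le s)
    calc 3 * (s * (r ^ s - 1)) ≤ 4 * s * r ^ s := by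
          have : r ^ s - 1 ≤ r ^ s := Nat.sub_le _ _
          have := Nat.mul_le_mul_left s this
          nlinarith
      _ ≤ r ^ s * r ^ s := Nat.mul_le_mul_right _ h2
      _ = _ := by ring

theorem NIa : NIa_stmt := by
  intro p e n r s hp h5 hpe he2 hen hr hs hd
  obtain ⟨h8, hpK, h11⟩ := NIa_K p r s hp h5 hr hs hd
  have hsK := NIa_sK r s hr hs h8
  obtain ⟨K, hK⟩ : ∃ K, K = r ^ s := ⟨_, rfl⟩
  rw [← hK] at h8 hpK h11 hsK hd ⊢
  obtain ⟨e', he'⟩ := hpe
  have he'0 : e' ≠ 0 := by rintro rfl; omega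
  have hpe' : p ≤ e := by rw [he']; exact Nat.le_mul_of_pos_right p (by omega)
  have hOm : Om e = Om e' + 1 := by rw [he']; exact NIa_Om p e' hp he'0
  have hOm2 := NIa_Om2 e' he'0
  -- the main inequality
  have key : 5 * e ^ (2 * Om e + 3) ≤ 12 * K ^ (e - 2) := by
    have hexp : 2 * Om e + 3 = 2 * Om e' + 5 := by rw [hOm]; ring
    rw [hexp]
    rcases Nat.lt_or_ge e' 2 with h | h
    · have he1 : e' = 1 := by omega
      have hep : e = p := by rw [he', he1, mul_one]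
      have hO : Om e' = 0 := by rw [he1]; unfold Om; simp
      rw [hO, hep]
      rcases Nat.lt_or_ge p 6 with h6 | h6
      · have hp5 : p = 5 := by omega
        have hK11 := h11 hp5
        rw [hp5]
        have : 11 ^ 3 ≤ K ^ 3 := Nat.pow_le_pow_left hK11 3
        norm_num at this ⊢
        omega
      · have hp7 : 7 ≤ p := by
          rcases Nat.lt_or_ge p 7 with h7 | h7
          · exfalso
            have : p = 6 := by omega
            rw [this] at hp
            revert hp; norm_num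
          · exact h7
        have h1 : p ^ 5 ≤ K ^ (p - 2) := by
          calc p ^ 5 ≤ K ^ 5 := Nat.pow_le_pow_left hpK.le 5
            _ ≤ K ^ (p - 2) := Nat.pow_le_pow_right (by omega) (by omega)
        norm_num
        omega
    · have h10 : 10 ≤ e := by
        rw [he']
        calc 10 = 5 * 2 := rfl
          _ ≤ p * e' := Nat.mul_le_mul h5 h
      have h52 : 5 * 2 ^ Om e' ≤ e := by
        rw [he']
        exact Nat.mul_le_mul h5 hOm2
      calc 5 * e ^ (2 * Om e' + 5) ≤ 12 * 8 ^ (e - 2) := NIa_main e (Om e') h10 h52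
        _ ≤ 12 * K ^ (e - 2) := Nat.mul_le_mul_left 12 (Nat.pow_le_pow_left h8 _)
  -- first term
  have hB : Bd e + 1 ≤ e ^ (2 * Om e + 3) := by
    unfold Bd
    have h1 : e ^ (2 * Om e + 3) = e ^ 2 * e ^ (2 * Om e + 1) := by rw [← pow_add]; congr 1; ring
    rw [h1]
    have h2 : 1 ≤ e ^ 2 := Nat.one_le_pow _ _ (by omega)
    have h3 : 1 ≤ e ^ (2 * Om e + 1) := Nat.one_le_pow _ _ (by omega)
    obtain ⟨t, ht⟩ : ∃ t, e ^ 2 = t + 1 := ⟨e ^ 2 - 1, by omega⟩
    rw [ht, Nat.add_sub_cancel, add_mul, one_mul]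
    omega
  have hfirst : 5 * (s * (K - 1) * Bd e + 1) ≤ 4 * K ^ e := by
    have h1 : 3 * (s * (K - 1) * Bd e + 1) ≤ K ^ 2 * e ^ (2 * Om e + 3) := by
      have h2 : 3 * (s * (K - 1)) * Bd e ≤ K ^ 2 * Bd e := Nat.mul_le_mul_right _ hsK
      have h3 : K ^ 2 * (Bd e + 1) ≤ K ^ 2 * e ^ (2 * Om e + 3) := Nat.mul_le_mul_left _ hB
      have h4 : 3 ≤ K ^ 2 := by nlinarith
      calc 3 * (s * (K - 1) * Bd e + 1) = 3 * (s * (K - 1)) * Bd e + 3 := by ring
        _ ≤ K ^ 2 * Bd e + K ^ 2 := Nat.add_le_add h2 h4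
        _ = K ^ 2 * (Bd e + 1) := by ring
        _ ≤ _ := h3
    have h5' : K ^ e = K ^ 2 * K ^ (e - 2) := by
      rw [← pow_add]; congr 1; omega
    have h6 : 5 * (K ^ 2 * e ^ (2 * Om e + 3)) ≤ 12 * K ^ e := by
      calc 5 * (K ^ 2 * e ^ (2 * Om e + 3)) = K ^ 2 * (5 * e ^ (2 * Om e + 3)) := by ring
        _ ≤ K ^ 2 * (12 * K ^ (e - 2)) := Nat.mul_le_mul_left _ key
        _ = 12 * K ^ e := by rw [h5']; ring
    omega
  -- second term
  have hsecond : 5 * (p * e ^ 2 * K ^ (n / p)) < K ^ n := by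
    have hn5 : 5 ≤ n := by omega
    have h1 : p * e ^ 2 ≤ n ^ 3 := by
      calc p * e ^ 2 ≤ n * n ^ 2 := Nat.mul_le_mul (by omega) (Nat.pow_le_pow_left hen 2)
        _ = n ^ 3 := by ring
    have hnp : n / p ≤ n / 5 := Nat.div_le_div_left h5 (by norm_num)
    obtain ⟨h, hh⟩ : ∃ h, h = n / 2 := ⟨_, rfl⟩
    have h2 : h + 2 ≤ n - n / p := by omega
    have h3 : n ≤ 2 * 2 ^ h := by
      have : h < 2 ^ h := Nat.lt_two_pow_self
      omega
    have h4 : 5 * n ^ 3 < 8 ^ (h + 2) := by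
      have h4' : n ^ 3 ≤ (2 * 2 ^ h) ^ 3 := Nat.pow_le_pow_left h3 3
      have h4'' : (2 * 2 ^ h) ^ 3 = 8 * 8 ^ h := by
        rw [mul_pow, ← pow_mul, mul_comm h 3, pow_mul]
        norm_num
      have h4''' : 0 < 8 ^ h := by positivity
      rw [pow_add]
      omega
    have h5' : 8 ^ (h + 2) ≤ K ^ (n - n / p) :=
      (Nat.pow_le_pow_left h8 _).trans (Nat.pow_le_pow_right (by omega) h2)
    have h6 : K ^ n = K ^ (n - n / p) * K ^ (n / p) := by
      rw [← pow_add]; congr 1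
      have := Nat.div_le_self n p
      omega
    rw [h6]
    have h7 : 0 < K ^ (n / p) := by positivity
    calc 5 * (p * e ^ 2 * K ^ (n / p)) = 5 * (p * e ^ 2) * K ^ (n / p) := by ring
      _ < K ^ (n - n / p) * K ^ (n / p) := by
          apply Nat.mul_lt_mul_of_pos_right _ h7
          omega
  have hKn : K ^ e ≤ K ^ n := Nat.pow_le_pow_right (by omega) hen
  omega

end QS
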